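import Pool.Agent.Helper1.TE.Goals4

/-!
# Project TE (MP_8b4d68_lc), packet BPC: the branching program of a gadget
-/

namespace Pool.Agent.Helper32.TE

open Pool.Agent.Helper1.TE

/-! ### Chains as sequences -/

section seq

variable {S : Type} {step : ℕ → ℕ → ℕ → S → Option S} {K : ℕ}

/-- a chain given by sequences of states and guesses -/
def Sq (step : ℕ → ℕ → ℕ → S → Option S) (K t : ℕ) (D : ℕ → S) (a b : ℕ → ℕ) : Prop :=
  ∀ i < t, a i < K ∧ b i < K ∧ step i (a i) (b i) (D i) = some (D (i + 1))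

theorem sq_ch {t : ℕ} {D : ℕ → S} {a b : ℕ → ℕ} (h : Sq step K t D a b) :
    Ch step K t (D 0) (D t) := by
  induction t with
  | zero => exact Ch.zero _
  | succ t ih =>
    obtain ⟨ha, hb, hs⟩ := h t (Nat.lt_succ_self t)
    exact Ch.succ _ _ ha hb (ih fun i hi => h i (by omega)) hs

theorem sq_left {s t : ℕ} {D : ℕ → S} {a b : ℕ → ℕ} (h : Sq step K t D a b) (hs : s ≤ t) :
    Sq step K s D a b := fun i hi => h i (by omega)

theorem sq_right {s t : ℕ} {D : ℕ → S} {a b : ℕ → ℕ} (h : Sq step K t D a b) (_ : s ≤ t) :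
    Sq (fun τ => step (s + τ)) K (t - s) (fun i => D (s + i)) (fun i => a (s + i))
      (fun i => b (s + i)) := fun i hi => h (s + i) (by omega)

theorem ch_sq {t : ℕ} {x y : S} (h : Ch step K t x y) :
    ∃ (D : ℕ → S) (a b : ℕ → ℕ), D 0 = x ∧ D t = y ∧ Sq step K t D a b := by
  induction h with
  | zero s =>
    exact ⟨fun _ => s, fun _ => 0, fun _ => 0, rfl, rfl, fun i hi => absurd hi (Nat.not_lt_zero i)⟩
  | @succ t s s' s'' a b ha hb h h' ih =>
    obtain ⟨D, a', b', h0, ht, hsq⟩ := ih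
    refine ⟨fun i => if i ≤ t then D i else s'', fun i => if i < t then a' i else a,
      fun i => if i < t then b' i else b, ?_, ?_, ?_⟩
    · simp only [Nat.zero_le, if_true]
      exact h0
    · simp only [show ¬ (t + 1 ≤ t) by omega, if_false]
    · intro i hi
      rcases Nat.lt_or_ge i t with hit | hit
      · simp only [hit, hit.le, show i + 1 ≤ t from hit, if_true]
        exact hsq i hit
      · have e : i = t := by omega
        subst e
        simp only [lt_irrefl, le_refl, show ¬ (i + 1 ≤ i) by omega, if_true, if_false, ht]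
        exact ⟨ha, hb, h'⟩

end seq

/-! ### The program -/

section prog

variable {Z : Type} (g : Gad Z) (h k : ℕ) (z₀ : Z) {Q : Type} (dec : Q → Z)

/-- the inner states -/
abbrev TT (h k : ℕ) (Q : Type) : Type := Fin k × Fin (5 ^ h) × (Fin 3 → Q) × Fin k × Fin k

/-- the states -/
abbrev SS (h k : ℕ) (Q : Type) : Type := Unit ⊕ (Fin k ⊕ TT h k Q)

/-- the test for the value of the root -/
def tstc (c v : ℕ) : ℕ := if v = c then 1 else 0

variable {k}

/-- the next contents -/
def nx (leaf : ℕ → ℕ) (f : ℕ → ℕ → ℕ → ℕ) (x : TT h k Q) : Option (Fin 3 → Z) :=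
  opR g (tstc x.1) leaf f h 1 0 0 x.2.1 x.2.2.2.1 x.2.2.2.2 (fun i => dec (x.2.2.1 i))

/-- normalized guesses -/
def nrmd (x : TT h k Q) : Prop := isG h x.2.1 ∨ (x.2.2.2.1.val = 0 ∧ x.2.2.2.2.val = 0)

/-- first inner state -/
def Pst (y : TT h k Q) : Prop := y.2.1.val = 0 ∧ (∀ i, dec (y.2.2.1 i) = z₀) ∧ nrmd h y

/-- inner step -/
def Ped (leaf : ℕ → ℕ) (f : ℕ → ℕ → ℕ → ℕ) (x y : TT h k Q) : Prop :=
  y.1 = x.1 ∧ y.2.1.val = x.2.1.val + 1 ∧ nx g h dec leaf f x = some (fun i => dec (y.2.2.1 i)) ∧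
    nrmd h y

/-- last step -/
def Pfi (leaf : ℕ → ℕ) (f : ℕ → ℕ → ℕ → ℕ) (x : TT h k Q) (w : Fin k) : Prop :=
  w = x.1 ∧ x.2.1.val + 1 = 5 ^ h ∧ ∃ E, nx g h dec leaf f x = some E

/-- the edges from an inner state -/
def edT (leaf : ℕ → ℕ) (f : ℕ → ℕ → ℕ → ℕ) (x : TT h k Q) : SS h k Q → Prop
  | Sum.inl _ => False
  | Sum.inr (Sum.inl w) => Pfi g h dec leaf f x w
  | Sum.inr (Sum.inr y) => Ped g h dec leaf f x y

/-- the edges from the start -/
def edS : SS h k Q → Prop
  | Sum.inr (Sum.inr y) => Pst h z₀ dec y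
  | _ => False

/-- the edges -/
def edg : SS h k Q → Fin k → SS h k Q → Prop
  | Sum.inl _, _, s => edS h z₀ dec s
  | Sum.inr (Sum.inl _), _, _ => False
  | Sum.inr (Sum.inr x), v, s => edT g h dec (fun _ => v) (fun _ _ _ => v) x s

open Classical in
/-- the labels -/
noncomputable def labS : SS h k Q → Lab k
  | Sum.inl _ => Lab.leaf (2 ^ h)
  | Sum.inr (Sum.inl v) => Lab.final v
  | Sum.inr (Sum.inr x) =>
    if isG h x.2.1 then Lab.node (gN h 1 x.2.1).1 x.2.2.2.1 x.2.2.2.2 else Lab.leaf (lN h 1 x.2.1)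

/-- the program -/
noncomputable def prog [Fintype Q] : BP k where
  S := SS h k Q
  fin := inferInstance
  start := Sum.inl ()
  lab := labS h
  edge := edg g h z₀ dec

theorem prog_size [Fintype Q] : (prog g h z₀ dec : BP k).size =
    1 + k + k * 5 ^ h * Fintype.card Q ^ 3 * k ^ 2 := by
  have h1 : (prog g h z₀ dec : BP k).size = Fintype.card (SS h k Q) := rfl
  rw [h1, Fintype.card_sum, Fintype.card_sum, Fintype.card_prod, Fintype.card_prod,
    Fintype.card_prod, Fintype.card_prod, Fintype.card_fun, Fintype.card_fin, Fintype.card_fin,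
    Fintype.card_fin, Fintype.card_unit]
  ring

/-- the leaf values of an input -/
def lfI (I : TInput k) (j : ℕ) : ℕ := (I.leaf j).val

/-- the tables of an input -/
def tbI (I : TInput k) (j a b : ℕ) : ℕ :=
  if hab : a < k ∧ b < k then (I.tab j ⟨a, hab.1⟩ ⟨b, hab.2⟩).val else 0

theorem tbI_fin (I : TInput k) (j : ℕ) (a b : Fin k) : tbI I j a b = (I.tab j a b).val := by
  rw [tbI, dif_pos ⟨a.2, b.2⟩]

theorem nval_I (I : TInput k) (n : ℕ) : ∀ j, nval (lfI I) (tbI I) n j = (I.val n j).val := by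
  induction n with
  | zero => intro j; rfl
  | succ n ih =>
    intro j
    have h1 : nval (lfI I) (tbI I) (n + 1) j =
      tbI I j (nval (lfI I) (tbI I) n (2 * j)) (nval (lfI I) (tbI I) n (2 * j + 1)) := rfl
    rw [h1, ih, ih, tbI_fin]
    rfl

theorem nx_loc (hLOC : GoalLOC) (I : TInput k) (x : TT h k Q) (v : Fin k)
    (h1 : isG h x.2.1 → v = I.tab (gN h 1 x.2.1).1 x.2.2.2.1 x.2.2.2.2)
    (h2 : ¬ isG h x.2.1 → v = I.leaf (lN h 1 x.2.1)) :
    nx g h dec (fun _ => v) (fun _ _ _ => v) x = nx g h dec (lfI I) (tbI I) x := by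
  refine hLOC.1 g _ _ _ _ _ h 1 0 0 _ _ _ _ ?_ ?_
  · intro hG
    rw [tbI_fin, ← h1 hG]
  · intro hG
    rw [lfI, ← h2 hG]

theorem edT_loc (hLOC : GoalLOC) (I : TInput k) (x : TT h k Q) (v : Fin k)
    (h1 : isG h x.2.1 → v = I.tab (gN h 1 x.2.1).1 x.2.2.2.1 x.2.2.2.2)
    (h2 : ¬ isG h x.2.1 → v = I.leaf (lN h 1 x.2.1)) (s : SS h k Q) :
    edT g h dec (fun _ => v) (fun _ _ _ => v) x s ↔ edT g h dec (lfI I) (tbI I) x s := by
  have e := nx_loc g h dec hLOC I x v h1 h2
  rcases s with s | w | y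
  · exact Iff.rfl
  · unfold edT Pfi
    rw [e]
  · unfold edT Ped
    rw [e]

theorem step_T (hLOC : GoalLOC) [Fintype Q] (I : TInput k) (x : TT h k Q) (s : SS h k Q) :
    (prog g h z₀ dec).Step I (Sum.inr (Sum.inr x)) s ↔ edT g h dec (lfI I) (tbI I) x s := by
  classical
  by_cases hG : isG h x.2.1
  · have e : (prog g h z₀ dec).lab (Sum.inr (Sum.inr x)) =
      Lab.node (gN h 1 x.2.1).1 x.2.2.2.1 x.2.2.2.2 := if_pos hG
    unfold BP.Step
    rw [e]
    exact edT_loc g h dec hLOC I x _ (fun _ => rfl) (fun h => absurd hG h) s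
  · have e : (prog g h z₀ dec).lab (Sum.inr (Sum.inr x)) = Lab.leaf (lN h 1 x.2.1) := if_neg hG
    unfold BP.Step
    rw [e]
    exact edT_loc g h dec hLOC I x _ (fun h => absurd h hG) (fun _ => rfl) s

theorem step_S [Fintype Q] (I : TInput k) (s : SS h k Q) :
    (prog g h z₀ dec).Step I (Sum.inl ()) s ↔ edS h z₀ dec s := Iff.rfl

theorem step_F [Fintype Q] (I : TInput k) (w : Fin k) (s : SS h k Q) :
    ¬ (prog g h z₀ dec).Step I (Sum.inr (Sum.inl w)) s := fun h => h

theorem lab_final [Fintype Q] {s : SS h k Q} {v : Fin k}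
    (hs : (prog g h z₀ dec).lab s = Lab.final v) : s = Sum.inr (Sum.inl v) := by
  rcases s with s | w | y
  · have h1 : (Lab.leaf (2 ^ h) : Lab k) = Lab.final v := hs
    cases h1
  · have h1 : (Lab.final w : Lab k) = Lab.final v := hs
    injection h1 with h2
    rw [h2]
  · exfalso
    classical
    by_cases hG : isG h y.2.1
    · have e : (prog g h z₀ dec).lab (Sum.inr (Sum.inr y)) =
        Lab.node (gN h 1 y.2.1).1 y.2.2.2.1 y.2.2.2.2 := if_pos hG
      rw [e] at hs
      cases hs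
    · have e : (prog g h z₀ dec).lab (Sum.inr (Sum.inr y)) = Lab.leaf (lN h 1 y.2.1) := if_neg hG
      rw [e] at hs
      cases hs

/-- a successful run of inner states -/
structure Run (I : TInput k) (X : ℕ → TT h k Q) (v : Fin k) : Prop where
  st : Pst h z₀ dec (X 0)
  ed : ∀ i, i + 1 < 5 ^ h → Ped g h dec (lfI I) (tbI I) (X i) (X (i + 1))
  fi : Pfi g h dec (lfI I) (tbI I) (X (5 ^ h - 1)) v

theorem run_tau {I : TInput k} {X : ℕ → TT h k Q} {v : Fin k} (R : Run g h z₀ dec I X v) :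
    ∀ i < 5 ^ h, (X i).2.1.val = i := by
  intro i
  induction i with
  | zero => intro _; exact R.st.1
  | succ i ih =>
    intro hi
    rw [(R.ed i hi).2.1, ih (by omega)]

theorem run_fst {I : TInput k} {X : ℕ → TT h k Q} {v : Fin k} (R : Run g h z₀ dec I X v) :
    ∀ i < 5 ^ h, (X i).1 = v := by
  have h0 : ∀ i < 5 ^ h, (X i).1 = (X 0).1 := by
    intro i
    induction i with
    | zero => intro _; rfl
    | succ i ih =>
      intro hi
      rw [(R.ed i hi).1, ih (by omega)]
  have hp : 0 < 5 ^ h := pow_pos (by norm_num) h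
  intro i hi
  rw [h0 i hi, R.fi.1, h0 (5 ^ h - 1) (by omega)]

theorem run_nrmd {I : TInput k} {X : ℕ → TT h k Q} {v : Fin k} (R : Run g h z₀ dec I X v) :
    ∀ i < 5 ^ h, nrmd h (X i) := by
  intro i
  cases i with
  | zero => intro _; exact R.st.2.2
  | succ i => intro hi; exact (R.ed i hi).2.2.2

/-- the chain of a run -/
theorem run_sq {I : TInput k} {X : ℕ → TT h k Q} {v : Fin k} (hK : g.K = k)
    (R : Run g h z₀ dec I X v) : ∃ D : ℕ → (Fin 3 → Z), (∀ i < 5 ^ h, D i = fun j => dec ((X i).2.2.1 j)) ∧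
      D 0 = (fun _ => z₀) ∧
      Sq (opR g (tstc v) (lfI I) (tbI I) h 1 0 0) g.K (5 ^ h) D (fun i => (X i).2.2.2.1)
        (fun i => (X i).2.2.2.2) := by
  have hp : 0 < 5 ^ h := pow_pos (by norm_num) h
  obtain ⟨E, hE⟩ := R.fi.2.2
  refine ⟨fun i => if i < 5 ^ h then (fun j => dec ((X i).2.2.1 j)) else E, ?_, ?_, ?_⟩
  · intro i hi
    exact if_pos hi
  · refine (if_pos hp).trans ?_
    funext j
    exact R.st.2.1 j
  · intro i hi
    refine ⟨by rw [hK]; exact (X i).2.2.2.1.2, by rw [hK]; exact (X i).2.2.2.2.2, ?_⟩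
    have e : opR g (tstc v) (lfI I) (tbI I) h 1 0 0 i (X i).2.2.2.1 (X i).2.2.2.2
        (fun j => dec ((X i).2.2.1 j)) = nx g h dec (lfI I) (tbI I) (X i) := by
      unfold nx
      rw [run_fst g h z₀ dec R i hi, run_tau g h z₀ dec R i hi]
    simp only [if_pos hi]
    rw [e]
    by_cases hi' : i + 1 < 5 ^ h
    · rw [if_pos hi']
      exact (R.ed i hi').2.2.1
    · rw [if_neg hi']
      have e2 : i = 5 ^ h - 1 := by omega
      rw [e2]
      exact hE

/-- shape of the successful computations -/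
theorem comp_run (hLOC : GoalLOC) [Fintype Q] (I : TInput k) {t : ℕ} {c : ℕ → SS h k Q}
    {v : Fin k} (hc : (prog g h z₀ dec).Comp I t c v) :
    t = 5 ^ h + 1 ∧ c 0 = Sum.inl () ∧ c t = Sum.inr (Sum.inl v) ∧
      ∃ X : ℕ → TT h k Q, Run g h z₀ dec I X v ∧ ∀ i < 5 ^ h, c (i + 1) = Sum.inr (Sum.inr (X i)) := by
  obtain ⟨h0, hst, hfin⟩ := hc
  have hct := lab_final g h z₀ dec hfin
  have h0' : c 0 = Sum.inl () := h0
  -- at least two steps
  have ht : t ≠ 0 := by
    intro h1
    rw [h1, h0'] at hct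
    cases hct
  obtain ⟨y, hy⟩ : ∃ y, c 1 = Sum.inr (Sum.inr y) := by
    have h1 := hst 0 (by omega)
    rw [h0', step_S] at h1
    rcases hc1 : c (0 + 1) with s | w | y
    · rw [hc1] at h1; exact h1.elim
    · rw [hc1] at h1; exact h1.elim
    · exact ⟨y, rfl⟩
  have ht1 : t ≠ 1 := by
    intro h1
    rw [h1, hy] at hct
    cases hct
  have hmid : ∀ i, i + 1 < t → ∃ x, c (i + 1) = Sum.inr (Sum.inr x) := by
    intro i
    induction i with
    | zero => intro _; exact ⟨y, hy⟩
    | succ i ih =>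
      intro hi
      obtain ⟨x, hx⟩ := ih (by omega)
      have h1 := hst (i + 1) (by omega)
      rw [hx, step_T g h z₀ dec hLOC] at h1
      rcases hc1 : c (i + 1 + 1) with s | w | z
      · rw [hc1] at h1; exact h1.elim
      · have h2 := hst (i + 1 + 1) (by omega)
        rw [hc1] at h2
        exact (step_F g h z₀ dec I w _ h2).elim
      · exact ⟨z, rfl⟩
  obtain ⟨X, hX⟩ : ∃ X : ℕ → TT h k Q, ∀ i, i + 1 < t → c (i + 1) = Sum.inr (Sum.inr (X i)) := by
    classical
    refine ⟨fun i => if hi : i + 1 < t then (hmid i hi).choose else y, fun i hi => ?_⟩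
    simp only [dif_pos hi]
    exact (hmid i hi).choose_spec
  have hS : Pst h z₀ dec (X 0) := by
    have h1 := hst 0 (by omega)
    rw [h0', step_S, hX 0 (by omega)] at h1
    exact h1
  have hE : ∀ i, i + 1 + 1 < t → Ped g h dec (lfI I) (tbI I) (X i) (X (i + 1)) := by
    intro i hi
    have h1 := hst (i + 1) (by omega)
    rw [hX i (by omega), hX (i + 1) hi, step_T g h z₀ dec hLOC] at h1
    exact h1
  have hF : Pfi g h dec (lfI I) (tbI I) (X (t - 2)) v := by
    have h1 := hst (t - 2 + 1) (by omega)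
    rw [hX (t - 2) (by omega), show t - 2 + 1 + 1 = t by omega, hct,
      step_T g h z₀ dec hLOC] at h1
    exact h1
  have htau : ∀ i, i + 1 < t → (X i).2.1.val = i := by
    intro i
    induction i with
    | zero => intro _; exact hS.1
    | succ i ih =>
      intro hi
      rw [(hE i hi).2.1, ih (by omega)]
  have htt : t = 5 ^ h + 1 := by
    have h1 := hF.2.1
    rw [htau (t - 2) (by omega)] at h1
    omega
  refine ⟨htt, h0', hct, X, ⟨hS, fun i hi => hE i (by omega), ?_⟩, fun i hi => hX i (by omega)⟩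
  have e : 5 ^ h - 1 = t - 2 := by omega
  rw [e]
  exact hF

/-- runs give successful computations -/
theorem run_comp (hLOC : GoalLOC) [Fintype Q] (I : TInput k) {X : ℕ → TT h k Q} {v : Fin k}
    (R : Run g h z₀ dec I X v) : ∃ c, (prog g h z₀ dec).Comp I (5 ^ h + 1) c v := by
  have hp : 0 < 5 ^ h := pow_pos (by norm_num) h
  let c : ℕ → SS h k Q := fun i => if i = 0 then Sum.inl () else
    if i ≤ 5 ^ h then Sum.inr (Sum.inr (X (i - 1))) else Sum.inr (Sum.inl v)
  have c0 : c 0 = Sum.inl () := if_pos rfl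
  have cm : ∀ i < 5 ^ h, c (i + 1) = Sum.inr (Sum.inr (X i)) := by
    intro i hi
    have h1 : c (i + 1) = if i + 1 = 0 then Sum.inl () else
      if i + 1 ≤ 5 ^ h then Sum.inr (Sum.inr (X (i + 1 - 1))) else Sum.inr (Sum.inl v) := rfl
    rw [h1, if_neg (by omega), if_pos (by omega), Nat.add_sub_cancel]
  have ce : c (5 ^ h + 1) = Sum.inr (Sum.inl v) := by
    have h1 : c (5 ^ h + 1) = if 5 ^ h + 1 = 0 then Sum.inl () else
      if 5 ^ h + 1 ≤ 5 ^ h then Sum.inr (Sum.inr (X (5 ^ h + 1 - 1))) else Sum.inr (Sum.inl v) := rfl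
    rw [h1, if_neg (by omega), if_neg (by omega)]
  refine ⟨c, c0, ?_, ?_⟩
  · intro i hi
    cases i with
    | zero =>
      rw [c0, cm 0 hp, step_S]
      exact R.st
    | succ i =>
      rw [cm i (by omega), step_T g h z₀ dec hLOC]
      by_cases hi' : i + 1 < 5 ^ h
      · rw [cm (i + 1) hi']
        exact R.ed i hi'
      · have e : i + 1 + 1 = 5 ^ h + 1 := by omega
        have e2 : i = 5 ^ h - 1 := by omega
        rw [e, ce, e2]
        exact R.fi
  · rw [ce]
    rfl

end prog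

/-- BPC -/
theorem gBPC : GoalBPC := by
  intro hCHS hALG hALB hUNQ hTHR hLOC Z g hg h k z₀ hh hk hK hV hst Q _ dec hinj hcov
  have hALG' := hALG hCHS g hg
  have hALB' := hALB hCHS hALG g hg
  have hUNQ' := hUNQ hCHS hALG g hg
  have hTHR' := hTHR hCHS hALG g hg
  have hp : 0 < 5 ^ h := pow_pos (by norm_num) h
  have hlf : ∀ (I : TInput k) j, lfI I j < g.K := by
    intro I j
    rw [hK]
    exact (I.leaf j).2
  have htb : ∀ (I : TInput k) j a b, tbI I j a b < g.K := by
    intro I j a b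
    rw [hK, tbI]
    by_cases hab : a < k ∧ b < k
    · rw [dif_pos hab]
      exact (I.tab j _ _).2
    · rw [dif_neg hab]
      omega
  have hVC : ∀ j : Fin 3, g.V ((fun _ => z₀ : Fin 3 → Z) j) := fun _ => hV
  -- the value of a run
  have hval : ∀ (I : TInput k) (X : ℕ → TT h k Q) (v : Fin k), Run g h z₀ dec I X v →
      v = I.val h 1 := by
    intro I X v R
    obtain ⟨D, hD, hD0, hsq⟩ := run_sq g h z₀ dec hK R
    have h1 := sq_ch hsq
    rw [hD0] at h1
    obtain ⟨z, hz, -⟩ := (hALG' (tstc v) (lfI I) (tbI I) (hlf I) (htb I) h 1 0 0 _ _ hVC).1 h1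
    by_contra hne
    have h2 : tstc v (nval (lfI I) (tbI I) h 1) = 0 := by
      rw [nval_I, tstc, if_neg]
      intro h3
      exact hne (Fin.ext h3.symm)
    rw [app, if_pos rfl, if_pos h2] at hz
    cases hz
  refine ⟨prog g h z₀ dec, ?_, ?_, ?_, ?_, prog_size g h z₀ dec⟩
  · -- Proper
    have hL3 := fun τ hτ => hLOC.2.2 h 0 1 τ hτ (by norm_num) (by norm_num)
    constructor
    · intro s j hs
      rcases s with s | w | y
      · have h1 : (Lab.leaf (2 ^ h) : Lab k) = Lab.leaf j := hs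
        injection h1 with h2
        rw [← h2]
        exact ⟨le_refl _, Nat.pow_lt_pow_right (by norm_num) (Nat.lt_succ_self h)⟩
      · have h1 : (Lab.final w : Lab k) = Lab.leaf j := hs
        cases h1
      · classical
        by_cases hG : isG h y.2.1
        · have e : (prog g h z₀ dec).lab (Sum.inr (Sum.inr y)) =
            Lab.node (gN h 1 y.2.1).1 y.2.2.2.1 y.2.2.2.2 := if_pos hG
          rw [e] at hs
          cases hs
        · have e : (prog g h z₀ dec).lab (Sum.inr (Sum.inr y)) = Lab.leaf (lN h 1 y.2.1) :=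
            if_neg hG
          rw [e] at hs
          injection hs with h2
          have h3 := (hL3 y.2.1 y.2.1.2).1
          rw [zero_add] at h3
          rw [← h2]
          exact h3
    · intro s j x' y' hs
      rcases s with s | w | y
      · have h1 : (Lab.leaf (2 ^ h) : Lab k) = Lab.node j x' y' := hs
        cases h1
      · have h1 : (Lab.final w : Lab k) = Lab.node j x' y' := hs
        cases h1
      · classical
        by_cases hG : isG h y.2.1
        · have e : (prog g h z₀ dec).lab (Sum.inr (Sum.inr y)) =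
            Lab.node (gN h 1 y.2.1).1 y.2.2.2.1 y.2.2.2.2 := if_pos hG
          rw [e] at hs
          injection hs with h2 h3 h4
          have h5 := (hL3 y.2.1 y.2.1.2).2 hG
          rw [zero_add] at h5
          rw [← h2]
          exact ⟨h5.1, h5.2.1⟩
        · have e : (prog g h z₀ dec).lab (Sum.inr (Sum.inr y)) = Lab.leaf (lN h 1 y.2.1) :=
            if_neg hG
          rw [e] at hs
          cases hs
  · -- Computes
    intro I
    constructor
    · obtain ⟨v, hv⟩ : ∃ v, v = I.val h 1 := ⟨_, rfl⟩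
      have h1 : Ch (opR g (tstc v) (lfI I) (tbI I) h 1 0 0) g.K (5 ^ h) (fun _ => z₀)
          (Function.update (fun _ => z₀) 0 z₀) := by
        refine (hALG' (tstc v) (lfI I) (tbI I) (hlf I) (htb I) h 1 0 0 _ _ hVC).2 ⟨z₀, ?_, rfl⟩
        rw [app, if_pos rfl, nval_I, tstc, hv, if_pos rfl, if_neg one_ne_zero]
      obtain ⟨D, a, b, hD0, -, hsq⟩ := ch_sq h1
      have hq : ∀ i < 5 ^ h, ∀ j, ∃ q, dec q = D i j := by
        intro i hi j
        have h2 := sq_ch (sq_left hsq hi.le)
        rw [hD0] at h2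
        have h3 := hALB' (tstc v) (lfI I) (tbI I) (hlf I) (htb I) h 1 0 0 _ _ i 1 hi.le hVC
          (fun _ => by rw [hst]; norm_num) h2 j
        rw [one_mul] at h3
        exact hcov _ h3.1 h3.2
      obtain ⟨q₀, hq₀⟩ : ∃ q, dec q = z₀ := hcov z₀ hV (by
        rw [hst]
        exact pow_pos hg.one_le _)
      classical
      have hk0 : 0 < k := by omega
      obtain ⟨X, hX⟩ : ∃ X : ℕ → TT h k Q, ∀ i, ∀ hi : i < 5 ^ h, X i = (v, ⟨i, hi⟩,
          (fun j => (hq i hi j).choose), (if isG h i then ⟨a i, hK ▸ (hsq i hi).1⟩ else ⟨0, hk0⟩),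
          (if isG h i then ⟨b i, hK ▸ (hsq i hi).2.1⟩ else ⟨0, hk0⟩)) := by
        refine ⟨fun i => if hi : i < 5 ^ h then (v, ⟨i, hi⟩,
          (fun j => (hq i hi j).choose), (if isG h i then ⟨a i, hK ▸ (hsq i hi).1⟩ else ⟨0, hk0⟩),
          (if isG h i then ⟨b i, hK ▸ (hsq i hi).2.1⟩ else ⟨0, hk0⟩)) else
          (v, ⟨0, hp⟩, fun _ => q₀, ⟨0, hk0⟩, ⟨0, hk0⟩), fun i hi => ?_⟩
        simp only [dif_pos hi]
      have hXD : ∀ i, i < 5 ^ h → (fun j => dec ((X i).2.2.1 j)) = D i := by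
        intro i hi
        funext j
        rw [hX i hi]
        exact (hq i hi j).choose_spec
      have hXn : ∀ i, i < 5 ^ h → nrmd h (X i) := by
        intro i hi
        rw [hX i hi]
        by_cases hG : isG h i
        · exact Or.inl hG
        · right
          refine ⟨?_, ?_⟩ <;> simp only [if_neg hG]
      have hXs : ∀ i, i < 5 ^ h → nx g h dec (lfI I) (tbI I) (X i) = some (D (i + 1)) := by
        intro i hi
        unfold nx
        rw [hXD i hi]
        have h2 := (hsq i hi).2.2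
        rw [← h2, hX i hi]
        by_cases hG : isG h i
        · simp only [if_pos hG]
        · simp only [if_neg hG]
          exact hLOC.2.1 g _ _ _ h 1 0 0 i _ _ _ _ _ hG
      have R : Run g h z₀ dec I X v := by
        refine ⟨⟨?_, ?_, hXn 0 hp⟩, ?_, ⟨?_, ?_, D (5 ^ h - 1 + 1), hXs _ (by omega)⟩⟩
        · rw [hX 0 hp]
        · intro j
          have h2 := congrFun (hXD 0 hp) j
          rw [hD0] at h2
          exact h2
        · intro i hi
          refine ⟨?_, ?_, ?_, hXn _ hi⟩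
          · rw [hX i (by omega), hX (i + 1) hi]
          · rw [hX i (by omega), hX (i + 1) hi]
          · rw [hXs i (by omega), hXD (i + 1) hi]
        · rw [hX _ (show 5 ^ h - 1 < 5 ^ h by omega)]
        · rw [hX _ (show 5 ^ h - 1 < 5 ^ h by omega)]
          exact Nat.sub_add_cancel hp
      obtain ⟨c, hc⟩ := run_comp g h z₀ dec hLOC I R
      exact ⟨_, c, v, hc⟩
    · intro t c v hc
      obtain ⟨-, -, -, X, R, -⟩ := comp_run g h z₀ dec hLOC I hc
      exact hval I X v R
  · -- Unambiguous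
    intro I t c v t' c' v' hc hc'
    obtain ⟨ht, hc0, hct, X, R, hX⟩ := comp_run g h z₀ dec hLOC I hc
    obtain ⟨ht', hc0', hct', X', R', hX'⟩ := comp_run g h z₀ dec hLOC I hc'
    have hvv : v = v' := by rw [hval I X v R, hval I X' v' R']
    subst hvv
    have htt : t = t' := by rw [ht, ht']
    subst htt
    refine ⟨rfl, ?_⟩
    obtain ⟨D, hD, hD0, hsq⟩ := run_sq g h z₀ dec hK R
    obtain ⟨D', hD', hD0', hsq'⟩ := run_sq g h z₀ dec hK R'
    have hXX : ∀ i < 5 ^ h, X i = X' i := by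
      intro i hi
      have k1 := sq_ch (sq_left hsq hi.le)
      have k2 := (hsq i hi).2.2
      have k3 := sq_ch (sq_right hsq (s := i + 1) hi)
      have k1' := sq_ch (sq_left hsq' hi.le)
      have k2' := (hsq' i hi).2.2
      have k3' := sq_ch (sq_right hsq' (s := i + 1) hi)
      rw [hD0] at k1
      rw [hD0'] at k1'
      have key := hUNQ' (tstc v) (lfI I) (tbI I) (hlf I) (htb I) h 1 0 0 _ _ _ _ _ _ _ i _ _ _ _ hi
        hVC (hsq i hi).1 (hsq i hi).2.1 (hsq' i hi).1 (hsq' i hi).2.1 k1 k2 k3 k1' k2' k3'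
      obtain ⟨e1, -, e3⟩ := key
      have f1 : (X i).1 = (X' i).1 := by
        rw [run_fst g h z₀ dec R i hi, run_fst g h z₀ dec R' i hi]
      have f2 : (X i).2.1 = (X' i).2.1 := by
        apply Fin.ext
        rw [run_tau g h z₀ dec R i hi, run_tau g h z₀ dec R' i hi]
      have f3 : (X i).2.2.1 = (X' i).2.2.1 := by
        funext j
        apply hinj
        rw [hD i hi, hD' i hi] at e1
        exact congrFun e1 j
      have f4 : (X i).2.2.2.1 = (X' i).2.2.2.1 ∧ (X i).2.2.2.2 = (X' i).2.2.2.2 := by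
        by_cases hG : isG h i
        · exact ⟨Fin.ext (e3 hG).1, Fin.ext (e3 hG).2⟩
        · have n1 := run_nrmd g h z₀ dec R i hi
          have n2 := run_nrmd g h z₀ dec R' i hi
          unfold nrmd at n1 n2
          rw [run_tau g h z₀ dec R i hi] at n1
          rw [run_tau g h z₀ dec R' i hi] at n2
          have m1 := n1.resolve_left hG
          have m2 := n2.resolve_left hG
          exact ⟨Fin.ext (m1.1.trans m2.1.symm), Fin.ext (m1.2.trans m2.2.symm)⟩
      exact Prod.ext f1 (Prod.ext f2 (Prod.ext f3 (Prod.ext f4.1 f4.2)))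
    intro i hi
    rcases Nat.eq_zero_or_pos i with hi0 | hi0
    · rw [hi0]
      exact hc0.trans hc0'.symm
    · obtain ⟨i, rfl⟩ : ∃ i', i = i' + 1 := ⟨i - 1, by omega⟩
      rcases Nat.lt_or_ge i (5 ^ h) with hi1 | hi1
      · rw [hX i hi1, hX' i hi1, hXX i hi1]
      · have e : i + 1 = t := by omega
        rw [e]
        exact hct.trans hct'.symm
  · -- Thrifty
    intro I t c v hc i hi j x y hlab
    obtain ⟨ht, hc0, hct, X, R, hX⟩ := comp_run g h z₀ dec hLOC I hc
    obtain ⟨D, hD, hD0, hsq⟩ := run_sq g h z₀ dec hK R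
    cases i with
    | zero =>
      exfalso
      have h1 : (Lab.leaf (2 ^ h) : Lab k) = Lab.node j x y := by
        rw [← hlab, hc0]
        rfl
      cases h1
    | succ i =>
      have hi1 : i < 5 ^ h := by omega
      rw [hX i hi1] at hlab
      have htau := run_tau g h z₀ dec R i hi1
      classical
      by_cases hG : isG h (X i).2.1
      · have e : (prog g h z₀ dec).lab (Sum.inr (Sum.inr (X i))) =
          Lab.node (gN h 1 (X i).2.1).1 (X i).2.2.2.1 (X i).2.2.2.2 := if_pos hG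
        rw [e] at hlab
        injection hlab with h2 h3 h4
        rw [htau] at h2 hG
        have k1 := sq_ch (sq_left hsq hi1.le)
        have k2 := (hsq i hi1).2.2
        have k3 := sq_ch (sq_right hsq (s := i + 1) hi1)
        rw [hD0] at k1
        have key := hTHR' (tstc v) (lfI I) (tbI I) (hlf I) (htb I) h 1 0 0 _ _ _ _ i _ _ hi1 hG
          hVC (hsq i hi1).1 (hsq i hi1).2.1 k1 k2 k3
        have h5 := ((hLOC.2.2 h 0 1 i hi1 (by norm_num) (by norm_num)).2 hG).2.2
        rw [zero_add] at h5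
        rw [h5, nval_I, nval_I, h2] at key
        exact ⟨by rw [← h3]; exact Fin.ext key.1, by rw [← h4]; exact Fin.ext key.2⟩
      · exfalso
        have e : (prog g h z₀ dec).lab (Sum.inr (Sum.inr (X i))) = Lab.leaf (lN h 1 (X i).2.1) :=
          if_neg hG
        rw [e] at hlab
        cases hlab

end Pool.Agent.Helper32.TE
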